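import Pool.Agent.MVF.C071
import Pool.Agent.MVF.C137
import Pool.Agent.OBM.C01
import Pool.Agent.OBM.C13
import Pool.Agent.OBM.C19
import Pool.Agent.OBM.C26
import Pool.Agent.OVM.C02
import Pool.Agent.OVM.C03

/-! Parts: OE.N_TH, OE.StN, OE.N_ONE, OE.StN2, OE.N_ROOT0 -/

section

/-!
# OE, one branch, module TH: the sums `That_j` with a twist `t` (after `Pool/Agent/OB/I_TH.lean` and `Pool/Agent/ME/N/I_TH.lean`)
-/

set_option autoImplicit false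

open NumberField

namespace Pool.Agent.OEI

open _root_.MU3 Pool.Agent.MU3 Pool.Agent.MU3A Pool.Agent.MU3B Pool.Agent.RI Pool.Agent.RID
  Pool.Agent.MUX Pool.Agent.ME Pool.Agent.MUXK Pool.Agent.MUXI Pool.Agent.NS Pool.Agent.NSI
  Pool.Agent.OB Pool.Agent.OBI Pool.Agent.OT Pool.Agent.OTI Pool.Agent.OE

noncomputable section

namespace THNx

lemma muX_ne {p : ℕ} {A B : ℤ} {f : ℕ}
    (hS : SetQ p A B f) {ι : Type} (R : RepsE A B (p * f) ι) (i : ι) : muXE R i ≠ 0 := by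
  have h1 : nI (R.b i) ≠ 0 := by
    intro h0
    have h2 := R.cop i
    rw [h0, Nat.coprime_zero_left] at h2
    have h3 : p = 1 := Nat.eq_one_of_mul_eq_one_right h2
    exact hS.pp.one_lt.ne' h3
  unfold muXE
  refine div_ne_zero (mul_ne_zero (R.nl i).om_ne ?_) (R.nl R.i0).om_ne
  exact_mod_cast h1

end THNx

/-- (TH) the sums `That_j` with a twist `t` -/
def Te_TH : Prop :=
  ∀ (p : ℕ) (A B : ℤ) (f : ℕ),
    SetQ p A B f → CaseE A B → 2 ∣ f →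
    ∀ g : Ideal (OO A B), idl (A := A) (B := B) (lvX p f 0) ≤ g → g ≤ idl f →
    ∀ (ι : Type) [Fintype ι] (R : RepsE A B (p * f) ι) (n : ℕ) (G : Type)
    [Group G] [Finite G] (γ : G) (Δ : Subgroup G) [Fintype Δ]
    (X : G → Set (ι × (OO A B ⧸ idl (A := A) (B := B) (lvX p f n)))), XM_E R p f n γ Δ X →
    ∀ (χ : Δ →* ℂˣ) (e0 : OO A B → ℂ) (kp c : ι → ℂ) (w : OO A B → ℂ) (e : OO A B → ℂ)
    (s : ℤ) (t : ℤ → ℂ),
    IsEIE g e → (∀ a b : ℤ, t (a * b) = t a * t b) → (∀ a b : ℤ, (p : ℤ) ∣ a - b → t a = t b) →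
    t 1 = 1 → t (-1) = s →
    (∀ x, IsCoprime x ((lvX p f 0 : ℕ) : OO A B) → e0 x * w x = e x * t (nm x)) →
    (∀ (δ : Δ) (j : ℕ), ∀ q ∈ X (γ ^ j * (δ : G)),
      (((χ δ)⁻¹ : ℂˣ) : ℂ) = kp q.1 * e0 (Quotient.out q.2)) →
    ∀ j : ℕ,
    (rE A B : ℂ) * ∑ δ : Δ, (((χ δ)⁻¹ : ℂˣ) : ℂ) * ∑ᶠ q ∈ X (γ ^ j * (δ : G)),
        w (Quotient.out q.2) *
        c q.1 * dlX (R.L q.1) (aX p f) (ptE R (lvX p f n) q.1 (Quotient.out q.2)) =
      STXE R (lvX p f n) (p ^ (n + 1)) (aX p f) e (kkTE R kp c t) ((1 + (p : ℤ)) ^ j) +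
        s * STXE R (lvX p f n) (p ^ (n + 1)) (aX p f) e (kkTE R kp c t) (-(1 + (p : ℤ)) ^ j)

open Classical in
/-- (TH) the sums `That_j` with a twist `t` -/
theorem te_TH (h1 : Te_TSH) (hP : Si_PTP_E) : Te_TH := by
  intro p A B f hS hE2 h2f g hlv hg ι _ R n G _ _ γ Δ _ X hM χ e0 kp c w e s t hE htm htp ht1
    hts hes hχ j
  have hm0 : lvX p f n ≠ 0 := OBI.THx.lvX_ne hS n
  have hfin : Finite (OO A B ⧸ idl (A := A) (B := B) (lvX p f n)) := MUXI.TH.finR _ hm0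
  have hq : q0 p = p := q0_odd hS.p2
  have hpn : p * p ^ n = p ^ (n + 1) := by ring
  rw [MUXI.TH.sum_disj (fun δ : Δ => X (γ ^ j * (δ : G)))
    (fun q δ δ' h2 h4 => Subtype.ext (mul_left_cancel (hM.uniq q _ _ h2 h4)))
    (fun δ => (((χ δ)⁻¹ : ℂˣ) : ℂ)) _ (fun q => kp q.1 * e0 (Quotient.out q.2))
    (fun δ q hq => hχ δ j q hq)]
  set GG : ι → OO A B → ℂ := fun i x =>
      kp i * c i * (t (nI (R.b i)))⁻¹ *
      ((if ((p ^ (n + 1) : ℕ) : ℤ) ∣ nm x * nI (R.b i) - (1 + (p : ℤ)) ^ j then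
        e x * dlX (R.L i) (aX p f) (ptE R (lvX p f n) i x) else 0) +
      s * (if ((p ^ (n + 1) : ℕ) : ℤ) ∣ nm x * nI (R.b i) - -(1 + (p : ℤ)) ^ j then
        e x * dlX (R.L i) (aX p f) (ptE R (lvX p f n) i x) else 0)) with hGG
  have hind : ∀ q : ι × (OO A B ⧸ idl (A := A) (B := B) (lvX p f n)),
      (if ∃ δ : Δ, q ∈ X (γ ^ j * (δ : G)) then
        kp q.1 * e0 (Quotient.out q.2) * (w (Quotient.out q.2) *
        c q.1 * dlX (R.L q.1) (aX p f) (ptE R (lvX p f n) q.1 (Quotient.out q.2))) else 0) =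
      if (Quotient.out q.2 : OO A B) - 1 ∈ idl (A := A) (B := B) 2 then
        GG q.1 (Quotient.out q.2) else 0 := by
    intro q
    have hmem := MUXI.TH.mem_iff_E hM q j
    rw [hq, hpn] at hmem
    rw [if_congr hmem rfl rfl, ite_and]
    refine if_congr Iff.rfl ?_ rfl
    exact OBI.THx.term hS n hg hE.toIsEI htm htp ht1 hts hes _ j _ _ _ _
  have hmM : lvX p f n = f * p ^ (n + 1) := lvX_odd hS.p2 f n
  have hlvd : ((p ^ (n + 1) : ℕ) : ℤ) ∣ ((lvX p f n : ℕ) : ℤ) := ⟨(f : ℤ), by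
    rw [hmM]; push_cast; ring⟩
  have hle0 : idl (A := A) (B := B) (lvX p f n) ≤ idl (A := A) (B := B) (lvX p f 0) := by
    refine Ideal.span_singleton_le_span_singleton.2 ⟨((p ^ n : ℕ) : OO A B), ?_⟩
    unfold lvX
    push_cast
    ring
  have h2n : 2 ∣ lvX p f n := by
    rw [hmM]
    exact h2f.mul_right _
  have hus : ∀ i : ι, (rE A B : ℂ) * ∑ᶠ q : OO A B ⧸ idl (A := A) (B := B) (lvX p f n),
      (if (Quotient.out q : OO A B) - 1 ∈ idl (A := A) (B := B) 2 then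
        GG i (Quotient.out q) else 0) =
      ∑ᶠ q : OO A B ⧸ idl (A := A) (B := B) (lvX p f n), GG i (Quotient.out q) := by
    intro i
    refine USum.usum hE2 hm0 h2n (GG i) ?_ ?_ ?_
    · intro x y hxy
      have e1 : e x = e y := hE.per x y (hlv (hle0 hxy))
      have e2 := (hP A B hE2.toCQ (p * f) ι R (lvX p f n) hm0 i).1 x y hxy
      have e3 := e2.2.2 (aX p f)
      have e4 : ∀ t : ℤ, ((p ^ (n + 1) : ℕ) : ℤ) ∣ nm x * nI (R.b i) - t ↔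
          ((p ^ (n + 1) : ℕ) : ℤ) ∣ nm y * nI (R.b i) - t := by
        intro t
        have e5 : ((p ^ (n + 1) : ℕ) : ℤ) ∣ (nm x - nm y) * nI (R.b i) :=
          (hlvd.trans (NSI.TH.nm_per hxy)).mul_right _
        have e6 : nm x * nI (R.b i) - t = (nm y * nI (R.b i) - t) + (nm x - nm y) * nI (R.b i) := by
          ring
        rw [e6]
        exact (Int.dvd_add_left e5)
      simp only [hGG]
      rw [e1, e3, if_congr (e4 _) rfl rfl, if_congr (e4 _) rfl rfl]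
    · intro x hx
      have e1 : e x ≠ 0 := by
        intro h0
        apply hx
        simp only [hGG, h0, zero_mul, ite_self, mul_zero, add_zero]
      have h8 : IsCoprime x ((f : ℕ) : OO A B) := OBI.THx.cop_f hg ((hE.supp x).1 e1)
      obtain ⟨k, hk⟩ := h2f
      have h9 : (2 : OO A B) ∣ ((f : ℕ) : OO A B) := ⟨(k : OO A B), by rw [hk]; push_cast; rfl⟩
      exact h8.of_isCoprime_of_dvd_right h9
    · intro z x hz
      have e1 : nm (z * x) = nm x := by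
        rw [nm_mul hE2.toCQ, (isUnit_nm hE2 z).1 hz, one_mul]
      have e2 : e (z * x) = emb z * e x := by rw [hE.mul, hE.unit z hz]
      have e3 : dlX (R.L i) (aX p f) (ptE R (lvX p f n) i (z * x)) =
          dlX (R.L i) (aX p f) (ptE R (lvX p f n) i x) / emb z := by
        rw [NSI.TH.ptE_mul hE2.toCQ]
        exact dlX_unit hE2 (R.nl i).toIsLI hz _ _
      have hz0 : emb z ≠ 0 := emb_ne_zero hE2.toCQ fun h0 => not_isUnit_zero (by
        haveI := isDomain hE2.toCQ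
        exact (h0 ▸ hz : IsUnit (0 : OO A B)))
      have e4 : e (z * x) * dlX (R.L i) (aX p f) (ptE R (lvX p f n) i (z * x)) =
          e x * dlX (R.L i) (aX p f) (ptE R (lvX p f n) i x) := by
        rw [e2, e3]
        field_simp
      simp only [hGG]
      rw [e1, e4]
  rw [finsum_congr hind, MUXI.TH.sum_pairs, Finset.mul_sum, Finset.sum_congr rfl fun i _ => hus i]
  unfold STXE
  rw [Finset.mul_sum, ← Finset.sum_add_distrib]
  refine Finset.sum_congr rfl fun i _ => ?_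
  have hT := h1 p A B f hS g hlv ι R n e hE.toIsEI i ((1 + (p : ℤ)) ^ j)
  have hT' := h1 p A B f hS g hlv ι R n e hE.toIsEI i (-(1 + (p : ℤ)) ^ j)
  rw [MUXI.TH.comb_sum (kp i * c i * (t (nI (R.b i)))⁻¹) (s : ℂ) _ _ _
    (fun x => rfl), ← hT, ← hT']
  have hmu := THNx.muX_ne hS R i
  unfold kkTE sumMod
  field_simp

end

end Pool.Agent.OEI


end

section

/-!
# OE, the one-branch theorem for `k = ℚ(i)`, `ℚ(√-3)` (helper60): statements

`O_HFINE` : twin of `OB.O_HFIN` for `SetOE` (`er = 1`). `O_NBE`, `O_NILE` : twins of `OB.O_NB`, `OB.O_NIL` for the exceptional fields.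
-/

set_option autoImplicit false

open NumberField IsDedekindDomain

namespace Pool.Agent.OEN

open _root_.MU3 _root_.Pool.Agent.MU3 _root_.Pool.Agent.MU3A _root_.Pool.Agent.MU3B _root_.Pool.Agent.RI
  _root_.Pool.Agent.RID _root_.Pool.Agent.MUX _root_.Pool.Agent.MUXK _root_.Pool.Agent.MUXZ
  _root_.Pool.Agent.ME _root_.Pool.Agent.NSI _root_.Pool.Agent.OB _root_.Pool.Agent.OE

noncomputable section

/-- (HFINE) the character sums, one branch, for the types `i` with `NP - 1 ≤ i (p - 1)`, `i ≤ NP - 2`; the sums are over ALL `x` modulo `m`. Module HFE of helper60. -/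
def O_HFINE : Prop :=
  ∀ (p : ℕ) (A B : ℤ) (P : Ideal (OO A B)) (V : ValuationSubring ℂ) (f : ℕ),
    SetOE p A B P V f → TorXE A B →
    ∀ (ι : Type) [Fintype ι] (R : RepsE A B (p * f) ι) (u el lam : ℂ),
    GoodL V (R.L R.i0) u el lam → ∀ w : OO A B → ℂ, IsTeiP p 1 P V w →
    ∀ e : OO A B → ℂ, IsEIE (idl (A := A) (B := B) (p * f)) e → ∀ r : ℕ, ¬ p ∣ r →
    (∀ x, e x ≠ 0 → e x ^ r = 1) → ∀ i : ℕ, nI P - 1 ≤ i * (p - 1) → i ≤ nI P - 2 →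
    (∀ x, x - 1 ∈ gO P f → x ∉ P → e x = w x ^ i) →
    ∀ s : ℤ, s = 1 ∨ s = -1 → ∀ kk : ι → ℂ, (∀ i, kk i ^ r = 1) →
    ∀ n₀ : ℕ, ∃ n, n₀ ≤ n ∧
      V.valuation (p : ℂ) < V.valuation ((∑ j ∈ Finset.range 2, (-1) ^ (1 - j) *
        (STXE R (lvX p f n) (p ^ (n + 1)) (aX p f) e kk ((1 + p) ^ j) +
          s * STXE R (lvX p f n) (p ^ (n + 1)) (aX p f) e kk (-((1 + p) ^ j)))) / u)

/-- (NBE) the one-branch theorem for the exceptional fields: nilpotency and the linear bound. -/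
def O_NBE : Prop := ∀ (p : ℕ) [Fact p.Prime], 5 ≤ p →
    ∀ (k K₀ : IntermediateField ℚ ℂ) (B : ℕ → IntermediateField ℚ ℂ) [FiniteDimensional ℚ k]
    [FiniteDimensional ℚ K₀] [∀ n, FiniteDimensional ℚ ↥(K₀ ⊔ B n)] (hB : BasX p k K₀ B)
    (hk₀ : ∀ n, k ≤ K₀ ⊔ B n) (hkK : k ≤ K₀), Module.finrank ℚ k = 2 →
    (∃ z ∈ k, (starRingEnd ℂ) z ≠ z) → ((∃ z ∈ k, z ^ 2 = -1) ∨ ∃ z ∈ k, z ^ 2 = -3) →
    ¬ p ∣ Module.finrank k (IntermediateField.extendScalars hB.hk) →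
    (∃ ω ∈ K₀, IsPrimitiveRoot ω p) →
    ∀ χ : (letI := algC hkK; (↥K₀ ≃ₐ[k] ↥K₀) →* (AlgebraicClosure (ZMod p))ˣ),
    ∃ (j : ℕ) (χ' : (letI := algC hkK; (↥K₀ ≃ₐ[k] ↥K₀) →* (AlgebraicClosure (ZMod p))ˣ)),
      j < p - 1 ∧ Even j ∧
      (letI := algC hkK
        ∀ (s : ↥K₀ ≃ₐ[k] ↥K₀) (c : ℕ), (∀ z : ↥K₀, z ^ p = 1 → s z = z ^ c) →
        ((χ' s : (AlgebraicClosure (ZMod p))ˣ) : AlgebraicClosure (ZMod p)) =
          χ s * (c : AlgebraicClosure (ZMod p)) ^ j) ∧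
      (∃ l : ℕ, NilC (AlgebraicClosure (ZMod p)) k K₀ B hk₀ hkK χ' l) ∧
      ∃ C : ℕ, ∀ n : ℕ,
        Module.Finite (AlgebraicClosure (ZMod p))
          (EigS (AlgebraicClosure (ZMod p)) k K₀ B n (hk₀ n) hkK χ') ∧
        Module.finrank (AlgebraicClosure (ZMod p))
          (EigS (AlgebraicClosure (ZMod p)) k K₀ B n (hk₀ n) hkK χ') ≤ C * (n + 1)

/-- (NILE) twin of `OB.O_NIL`. -/
def O_NILE : Prop := ∀ (p : ℕ) [Fact p.Prime], 5 ≤ p →
    ∀ (k K₀ : IntermediateField ℚ ℂ) (B : ℕ → IntermediateField ℚ ℂ) [FiniteDimensional ℚ k]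
    [FiniteDimensional ℚ K₀] [∀ n, FiniteDimensional ℚ ↥(K₀ ⊔ B n)] (hB : BasX p k K₀ B)
    (hk₀ : ∀ n, k ≤ K₀ ⊔ B n) (hkK : k ≤ K₀), Module.finrank ℚ k = 2 →
    (∃ z ∈ k, (starRingEnd ℂ) z ≠ z) → ((∃ z ∈ k, z ^ 2 = -1) ∨ ∃ z ∈ k, z ^ 2 = -3) →
    ¬ p ∣ Module.finrank k (IntermediateField.extendScalars hB.hk) →
    (∃ ω ∈ K₀, IsPrimitiveRoot ω p) →
    ∀ χ : (letI := algC hkK; (↥K₀ ≃ₐ[k] ↥K₀) →* (AlgebraicClosure (ZMod p))ˣ),
    ∃ (j : ℕ) (χ' : (letI := algC hkK; (↥K₀ ≃ₐ[k] ↥K₀) →* (AlgebraicClosure (ZMod p))ˣ)),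
      j < p - 1 ∧ Even j ∧
      (letI := algC hkK
        ∀ (s : ↥K₀ ≃ₐ[k] ↥K₀) (c : ℕ), (∀ z : ↥K₀, z ^ p = 1 → s z = z ^ c) →
        ((χ' s : (AlgebraicClosure (ZMod p))ˣ) : AlgebraicClosure (ZMod p)) =
          χ s * (c : AlgebraicClosure (ZMod p)) ^ j) ∧
      ∃ l : ℕ, NilC (AlgebraicClosure (ZMod p)) k K₀ B hk₀ hkK χ' l

end

end Pool.Agent.OEN


end

section

/-!
# OE, one branch (helper60): the two branches for ALL imaginary quadratic fields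

`O_NILA` : `OB.O_NIL` without the hypothesis on `k`; it follows from `OB.O_NIL` and `O_NILE`. `one_evenA`, `one_bothA` : after `OB/F_ONE.lean`, `OB/F_TWO.lean`.
-/

set_option autoImplicit false

open NumberField IsDedekindDomain Finset
open scoped nonZeroDivisors Pointwise

namespace Pool.Agent.OEN

open _root_.Pool.Agent.RI _root_.Pool.Agent.RID _root_.Pool.Agent.MU3 _root_.Pool.Agent.MUXK
  _root_.Pool.Agent.MUXZ _root_.Pool.Agent.NSI _root_.Pool.Agent.OB _root_.Pool.Agent.OBF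

open CHIx

/-- THE ONE BRANCH THEOREM for all imaginary quadratic fields. -/
def O_NILA : Prop := ∀ (p : ℕ) [Fact p.Prime], 5 ≤ p →
    ∀ (k K₀ : IntermediateField ℚ ℂ) (B : ℕ → IntermediateField ℚ ℂ) [FiniteDimensional ℚ k]
    [FiniteDimensional ℚ K₀] [∀ n, FiniteDimensional ℚ ↥(K₀ ⊔ B n)] (hB : BasX p k K₀ B)
    (hk₀ : ∀ n, k ≤ K₀ ⊔ B n) (hkK : k ≤ K₀), Module.finrank ℚ k = 2 →
    (∃ z ∈ k, (starRingEnd ℂ) z ≠ z) →
    ¬ p ∣ Module.finrank k (IntermediateField.extendScalars hB.hk) →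
    (∃ ω ∈ K₀, IsPrimitiveRoot ω p) →
    ∀ χ : (letI := algC hkK; (↥K₀ ≃ₐ[k] ↥K₀) →* (AlgebraicClosure (ZMod p))ˣ),
    ∃ (j : ℕ) (χ' : (letI := algC hkK; (↥K₀ ≃ₐ[k] ↥K₀) →* (AlgebraicClosure (ZMod p))ˣ)),
      j < p - 1 ∧ Even j ∧
      (letI := algC hkK
        ∀ (s : ↥K₀ ≃ₐ[k] ↥K₀) (c : ℕ), (∀ z : ↥K₀, z ^ p = 1 → s z = z ^ c) →
        ((χ' s : (AlgebraicClosure (ZMod p))ˣ) : AlgebraicClosure (ZMod p)) =
          χ s * (c : AlgebraicClosure (ZMod p)) ^ j) ∧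
      ∃ l : ℕ, NilC (AlgebraicClosure (ZMod p)) k K₀ B hk₀ hkK χ' l

theorem nilA (h : O_NIL) (h' : O_NILE) : O_NILA := by
  intro p hpf h5 k K₀ B _ _ _ hB hk₀ hkK h2 hi hcop hom χ
  by_cases h4 : ∃ z ∈ k, z ^ 2 = -1
  · exact h' p h5 k K₀ B hB hk₀ hkK h2 hi (Or.inl h4) hcop hom χ
  by_cases h3 : ∃ z ∈ k, z ^ 2 = -3
  · exact h' p h5 k K₀ B hB hk₀ hkK h2 hi (Or.inr h3) hcop hom χ
  exact h p h5 k K₀ B hB hk₀ hkK h2 hi (fun z hz hz2 => h4 ⟨z, hz, hz2⟩)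
    (fun z hz hz2 => h3 ⟨z, hz, hz2⟩) hcop hom χ

/-- The even branch. -/
theorem one_evenA (hLAY : Sf_LAY) (hBAX : Sq_BAX) (hNIL : O_NILA) (p : ℕ) [Fact p.Prime]
    (hp : 5 ≤ p) (k K : IntermediateField ℚ ℂ) [FiniteDimensional ℚ K] (h : k ≤ K)
    (hG : IsGalois k (IntermediateField.extendScalars h))
    (hc : ∀ σ τ : (IntermediateField.extendScalars h) ≃ₐ[k] (IntermediateField.extendScalars h),
      σ * τ = τ * σ)
    (h2 : Module.finrank ℚ k = 2) (hi : ∃ z ∈ k, (starRingEnd ℂ) z ≠ z)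
    (hd : ¬ p ∣ Module.finrank k (IntermediateField.extendScalars h))
    (hz : ∃ ζ ∈ K, IsPrimitiveRoot ζ p) (χ : MuCyc.Chr p h) :
    ∃ (j : ℕ) (χ' : MuCyc.Chr p h), j < p - 1 ∧ Even j ∧ MuCyc.IsTwist p h χ χ' j ∧
      MuCyc.MuZeroC p h χ' := by
  have hpp : p.Prime := Fact.out
  obtain ⟨B, hlay, hmono, hu⟩ := hLAY p (by omega)
  have hfk : FiniteDimensional ℚ k :=
    FiniteDimensional.of_injective (IntermediateField.inclusion h).toLinearMap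
      (IntermediateField.inclusion h).injective
  have hfB : ∀ n, FiniteDimensional ℚ (B n) := fun n =>
    Module.finite_of_finrank_pos (by rw [(hlay n).1]; exact pow_pos hpp.pos n)
  have hfL : ∀ n, FiniteDimensional ℚ ↥(K ⊔ B n) := fun n =>
    IntermediateField.finiteDimensional_sup K (B n)
  have hdeg : ¬ p ∣ Module.finrank ℚ K := by
    letI := algC h
    have e1 : Module.finrank ℚ k * Module.finrank k K = Module.finrank ℚ K := by
      have : IsScalarTower ℚ k K := IsScalarTower.of_algebraMap_eq fun _ => rfl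
      exact Module.finrank_mul_finrank ℚ k K
    rw [← e1, finrank_algC h, h2, hpp.dvd_mul, not_or]
    refine ⟨fun h0 => ?_, hd⟩
    have := Nat.le_of_dvd (by norm_num) h0
    omega
  have hB : BasX p k K B := hBAX p k K B h hG hc hdeg hlay hmono
  obtain ⟨j, χ', hj, hev, htw, l, hl⟩ := hNIL p hp k K B hB
    (fun n => h.trans le_sup_left) h h2 hi hd hz (toC h χ)
  refine ⟨j, ofC h χ', hj, hev, ?_, ?_⟩
  · intro s' c hs
    letI := algC h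
    let s : ↥K ≃ₐ[k] ↥K := AlgEquiv.autCongr (extEquiv h) s'
    have e1 : toC h χ s = χ s' := toC_apply h χ s s' (by
      intro x x' hx
      obtain rfl : x' = ⟨(x : ℂ), x.2⟩ := Subtype.ext hx
      rfl)
    have e2 := htw s c (by
      intro z hz'
      have h5 := hs ⟨(z : ℂ), z.2⟩ (by
        apply Subtype.ext
        exact congrArg Subtype.val hz')
      apply Subtype.ext
      exact congrArg Subtype.val h5)
    rw [e1] at e2
    exact e2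
  · apply nil_mu p k K B hB hu (fun n => h.trans le_sup_left) h (ofC h χ') l
    rw [toC_ofC]
    exact hl

/-- Both branches and the number of the good characters. -/
theorem one_bothA (hLAY : Sf_LAY) (hBAX : Sq_BAX) (hNIL : O_NILA) (p : ℕ) [Fact p.Prime]
    (hp : 5 ≤ p) (k K : IntermediateField ℚ ℂ) [FiniteDimensional ℚ K] (h : k ≤ K)
    (hG : IsGalois k (IntermediateField.extendScalars h))
    (hc : ∀ σ τ : (IntermediateField.extendScalars h) ≃ₐ[k] (IntermediateField.extendScalars h),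
      σ * τ = τ * σ)
    (h2 : Module.finrank ℚ k = 2) (hi : ∃ z ∈ k, (starRingEnd ℂ) z ≠ z)
    (hd : ¬ p ∣ Module.finrank k (IntermediateField.extendScalars h))
    (hz : ∃ ζ ∈ K, IsPrimitiveRoot ζ p) :
    (∀ χ : MuCyc.Chr p h, ∃ i j : ℕ, i < p - 1 ∧ j < p - 1 ∧ Even i ∧ Odd j ∧
      (∃ χ' : MuCyc.Chr p h, MuCyc.IsTwist p h χ χ' i ∧ MuCyc.MuZeroC p h χ') ∧
      ∃ χ' : MuCyc.Chr p h, MuCyc.IsTwist p h χ χ' j ∧ MuCyc.MuZeroC p h χ') ∧
    2 * Module.finrank k (IntermediateField.extendScalars h) ≤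
      (p - 1) * Nat.card {χ : MuCyc.Chr p h // MuCyc.MuZeroC p h χ} := by
  obtain ⟨ω, hω, -, -⟩ := exists_omega p h hz
  have hpp : p.Prime := Fact.out
  have hodd : Odd p := hpp.odd_of_ne_two (by omega)
  have key : ∀ χ : MuCyc.Chr p h, ∃ i j : ℕ, i < p - 1 ∧ j < p - 1 ∧ Even i ∧ Odd j ∧
      MuCyc.MuZeroC p h (χ * ω ^ i) ∧ MuCyc.MuZeroC p h (χ * ω ^ j) := by
    intro χ
    obtain ⟨i, χ₁, hi1, hi2, hi3, hi4⟩ :=
      one_evenA hLAY hBAX hNIL p hp k K h hG hc h2 hi hd hz χ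
    obtain ⟨j, χ₂, hj1, hj2, hj3, hj4⟩ :=
      one_evenA hLAY hBAX hNIL p hp k K h hG hc h2 hi hd hz (χ * ω)
    rw [hω] at hi3 hj3
    subst hi3 hj3
    refine ⟨i, j + 1, hi1, ?_, hi2, hj2.add_one, hi4, ?_⟩
    · obtain ⟨a, ha⟩ := hj2
      obtain ⟨b, hb⟩ := hodd
      omega
    · have e1 : χ * ω ^ (j + 1) = χ * ω * ω ^ j :=
        (congrArg (χ * ·) (pow_succ' ω j)).trans (mul_assoc χ ω (ω ^ j)).symm
      rw [e1]
      exact hj4
  refine ⟨fun χ => ?_, ?_⟩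
  · obtain ⟨i, j, h5, h6, h7, h8, h9, h10⟩ := key χ
    exact ⟨i, j, h5, h6, h7, h8, ⟨_, (hω _ _ _).2 rfl, h9⟩, ⟨_, (hω _ _ _).2 rfl, h10⟩⟩
  · rw [← card_chr p h hG hc hd]
    refine count ω {χ | MuCyc.MuZeroC p h χ} (p - 1) fun χ => ?_
    obtain ⟨i, j, h5, h6, h7, h8, h9, h10⟩ := key χ
    refine ⟨i, j, h5, h6, ?_, h9, h10⟩
    rintro rfl
    exact (Nat.not_even_iff_odd.2 h8) h7

end Pool.Agent.OEN


end

section

/-!
# OE, the one-branch theorem for `k = ℚ(i)`, `ℚ(√-3)` (helper84): statements of the blocks I, J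

`O_I3E` : twin of `OBI.O_I3`, from `O_HFINE`. `InpGOE` : twin of `OBZ.InpGO`. `O_MAINE` : twin of `OB.O_MAIN` for `kk A B`, `CaseE A B`.
-/

set_option autoImplicit false

open NumberField IsDedekindDomain

namespace Pool.Agent.OEN

open _root_.MU3 Pool.Agent.MU3 Pool.Agent.MU3A Pool.Agent.MU3B Pool.Agent.RI Pool.Agent.RID
  Pool.Agent.MUX Pool.Agent.ME Pool.Agent.MUXK Pool.Agent.MUXE Pool.Agent.MUXJ Pool.Agent.MUXZ
  Pool.Agent.NSI Pool.Agent.OB Pool.Agent.OE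
open Pool.Agent.OBI (IsOm brO)

noncomputable section

/-- THE RESULT of block I, one branch: for every `χ` there is an even branch `χ om^j` with the input (I3) of block K. From `O_HFINE`. Module of helper79. MODEL: `OB/I_I31.lean`, `OB/I_INP.lean`. -/
def O_I3E : Prop :=
  ∀ (p : ℕ) [Fact p.Prime] (A B : ℤ) (P : Ideal (OO A B)) (V : ValuationSubring ℂ) (f : ℕ),
    SetOE p A B P V f → TorXE A B →
    ∀ (ι : Type) [Fintype ι] (R : RepsE A B (p * f) ι) (u el lam : ℂ),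
    GoodL V (R.L R.i0) u el lam →
    ∀ (K₀ K : IntermediateField ℚ ℂ) (Bn : ℕ → IntermediateField ℚ ℂ)
    [FiniteDimensional ℚ (kk A B)] [FiniteDimensional ℚ K] [∀ n, FiniteDimensional ℚ ↥(K ⊔ Bn n)]
    (_ : SetX p (kk A B) K₀ K Bn)
    (_ : ∀ y ∈ K₀, y ∈ RFE (idl (A := A) (B := B) (lvX p f 0)))
    (hk : ∀ n, kk A B ≤ K ⊔ Bn n) (hk₀ : ∀ n, kk A B ≤ K₀ ⊔ Bn n) (hkK : kk A B ≤ K₀)
    (S : Finset ℕ) (c c₀ : ℕ → ℂ) (n₁ : ℕ)
    (hW : Pool.Agent.MUXZ.InpW p (kk A B) K₀ K Bn hk hk₀ S c c₀ n₁)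
    (C : ∀ n, (letI := algC (hk₀ n); ↥(K₀ ⊔ Bn n) ≃ₐ[kk A B] ↥(K₀ ⊔ Bn n)) → ℂ)
    (_ : ∀ n, 1 ≤ n → EInpOE p P V f R u n (hk₀ n) (C n))
    (_ : ∀ n, 1 ≤ n → c₀ n = C n (letI := algC (hk₀ n); 1))
    (χ om : (letI := algC hkK; (↥K₀ ≃ₐ[kk A B] ↥K₀) →* (IsLocalRing.ResidueField V)ˣ))
    (_ : IsOm (IsLocalRing.ResidueField V) p hkK om),
    ∃ j, j < p - 1 ∧ Even j ∧ ∀ N n₀ : ℕ, ∃ n, n₀ ≤ n ∧
      I3At (IsLocalRing.ResidueField V) p (kk A B) K₀ Bn hkK (brO hkK χ om j) N n (hk₀ n) (c₀ n)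
        (hW.mem₀ n)

/-- the inputs of block K -/
def InpGOE (p : ℕ) (A B : ℤ) (V : ValuationSubring ℂ) : Prop :=
  ∀ (f : ℕ), f ≠ 0 → ¬ p ∣ f → 12 ∣ f → 2 * absD A B ∣ ((p * f : ℕ) : ℤ) →
  ∀ (K₀ K : IntermediateField ℚ ℂ) (Bn : ℕ → IntermediateField ℚ ℂ)
    [FiniteDimensional ℚ (kk A B)] [FiniteDimensional ℚ K] [∀ n, FiniteDimensional ℚ ↥(K ⊔ Bn n)],
    SetX p (kk A B) K₀ K Bn → (∀ y ∈ K, y ∈ RFE (idl (A := A) (B := B) (lvX p f 0))) →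
    (∀ y ∈ RFE (⊤ : Ideal (OO A B)), y ∈ K) →
    ∀ (hk : ∀ n, kk A B ≤ K ⊔ Bn n) (hk₀ : ∀ n, kk A B ≤ K₀ ⊔ Bn n) (hkK : kk A B ≤ K₀),
    ∃ (S : Finset ℕ) (c c₀ : ℕ → ℂ) (n₁ : ℕ)
      (hW : InpW p (kk A B) K₀ K Bn hk hk₀ S c c₀ n₁),
      ∀ (χ om : (letI := algC hkK;
          (↥K₀ ≃ₐ[kk A B] ↥K₀) →* (IsLocalRing.ResidueField V)ˣ)),
        IsOm (IsLocalRing.ResidueField V) p hkK om →
        ∃ j, j < p - 1 ∧ Even j ∧ ∀ N n₀ : ℕ, ∃ n, n₀ ≤ n ∧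
          I3At (IsLocalRing.ResidueField V) p (kk A B) K₀ Bn hkK (brO hkK χ om j) N n (hk₀ n)
            (c₀ n) (hW.mem₀ n)

/-- the one-branch theorem for the abelian extension `K₀` of `k = kk A B`, of degree prime to `p`, with the `p`-th roots of
unity, and the layers `Bn` -/
def O_MAINE : Prop :=
  ∀ (p : ℕ) [Fact p.Prime], 5 ≤ p → ∀ (A B : ℤ), CaseE A B →
    ∀ (K₀ : IntermediateField ℚ ℂ) [FiniteDimensional ℚ K₀] (hk : kk A B ≤ K₀),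
    IsGalois (kk A B) (IntermediateField.extendScalars hk) →
    (∀ σ τ : (IntermediateField.extendScalars hk) ≃ₐ[kk A B]
      (IntermediateField.extendScalars hk), σ * τ = τ * σ) →
    ¬ p ∣ Module.finrank (kk A B) (IntermediateField.extendScalars hk) →
    (∃ ω ∈ K₀, IsPrimitiveRoot ω p) →
    ∀ (Bn : ℕ → IntermediateField ℚ ℂ) [∀ n, FiniteDimensional ℚ ↥(K₀ ⊔ Bn n)],
    (∀ n, IsLayer p n (Bn n)) → Monotone Bn → ∀ (hk₀ : ∀ n, kk A B ≤ K₀ ⊔ Bn n)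
    (χ om : (letI := algC hk; (↥K₀ ≃ₐ[kk A B] ↥K₀) →* (AlgebraicClosure (ZMod p))ˣ)),
    IsOm (AlgebraicClosure (ZMod p)) p hk om →
    ∃ j, j < p - 1 ∧ Even j ∧
      (∃ l : ℕ, NilC (AlgebraicClosure (ZMod p)) (kk A B) K₀ Bn hk₀ hk (brO hk χ om j) l) ∧
      ∃ C : ℕ, ∀ n : ℕ,
        Module.Finite (AlgebraicClosure (ZMod p))
          (EigS (AlgebraicClosure (ZMod p)) (kk A B) K₀ Bn n (hk₀ n) hk (brO hk χ om j)) ∧
        Module.finrank (AlgebraicClosure (ZMod p))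
          (EigS (AlgebraicClosure (ZMod p)) (kk A B) K₀ Bn n (hk₀ n) hk (brO hk χ om j)) ≤
          C * (n + 1)

end

end Pool.Agent.OEN


end

section

/-!
# OE, one branch (helper60): the final statement for ALL imaginary quadratic fields, from `O_NILE`

After `OB/F_ROOT.lean`; the second half is that of `OBF.one_branch`.
-/

set_option autoImplicit false

open NumberField

namespace Pool.Agent.OEN

open _root_.Pool.Agent.MuCyc _root_.Pool.Agent.OBF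
open Pool.Agent.OEF (ImQ)

/-- the first half -/
theorem one_all (hN : O_NILE) (p : ℕ) [Fact p.Prime] (hp : 5 ≤ p) (k K : IntermediateField ℚ ℂ)
    (h : k ≤ K) (hk : ImQ k) (hK : Abelian p h) (hz : ∃ ζ ∈ K, IsPrimitiveRoot ζ p) :
      (∀ χ : Chr p h,
        (∃ i < p - 1, Even i ∧ ∃ χ' : Chr p h, IsTwist p h χ χ' i ∧ MuZeroC p h χ') ∧
        ∃ j < p - 1, Odd j ∧ ∃ χ' : Chr p h, IsTwist p h χ χ' j ∧ MuZeroC p h χ') ∧
      2 * Module.finrank k (IntermediateField.extendScalars h) ≤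
        (p - 1) * Nat.card {χ : Chr p h // MuZeroC p h χ} := by
  have := hK.fin
  obtain ⟨h1, h2⟩ := one_bothA tf_LAY _root_.Pool.Agent.OB.q_BAX
    (nilA _root_.Pool.Agent.OB.nil hN) p hp k K h hK.gal hK.comm hk.deg hk.imag hK.prime_to hz
  refine ⟨fun χ => ?_, h2⟩
  obtain ⟨i, j, hi, hj, ei, oj, gi, gj⟩ := h1 χ
  exact ⟨⟨i, hi, ei, gi⟩, j, hj, oj, gj⟩

/-- The final statement, from `O_NILE`. -/
theorem one_branch_all0 (hN : O_NILE) :
    (∀ (p : ℕ) [Fact p.Prime], 5 ≤ p → ∀ (k K : IntermediateField ℚ ℂ) (h : k ≤ K),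
      ImQ k → Abelian p h → (∃ ζ ∈ K, IsPrimitiveRoot ζ p) →
      (∀ χ : Chr p h,
        (∃ i < p - 1, Even i ∧ ∃ χ' : Chr p h, IsTwist p h χ χ' i ∧ MuZeroC p h χ') ∧
        ∃ j < p - 1, Odd j ∧ ∃ χ' : Chr p h, IsTwist p h χ χ' j ∧ MuZeroC p h χ') ∧
      2 * Module.finrank k (IntermediateField.extendScalars h) ≤
        (p - 1) * Nat.card {χ : Chr p h // MuZeroC p h χ}) ∧
    (∀ E : IntermediateField ℚ ℂ, Module.finrank ℚ E = 4 → (∃ w ∈ E, w ^ 2 = 5) →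
      (∃ φ : E →+* ℂ, ∀ x, (starRingEnd ℂ) (φ x) = φ x) →
      (∃ φ : E →+* ℂ, ∃ x, (starRingEnd ℂ) (φ x) ≠ φ x) →
      ∀ (F F' : IntermediateField ℚ ℂ)
        (h : E ⊔ IntermediateField.adjoin ℚ {z : ℂ | z ^ 5 = 1} ≤ F'),
        FiniteDimensional ℚ F' →
        IsGalois ↥(E ⊔ IntermediateField.adjoin ℚ {z : ℂ | z ^ 5 = 1})
          (IntermediateField.extendScalars h) →
        (∃ a : ℕ, Module.finrank ↥(E ⊔ IntermediateField.adjoin ℚ {z : ℂ | z ^ 5 = 1})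
          (IntermediateField.extendScalars h) = 5 ^ a) →
        F ≤ F' → MuZeroF 5 F) :=
  ⟨fun p _ hp k K h hk hK hz => one_all hN p hp k K h hk hK hz, OBF.one_branch.2⟩

end Pool.Agent.OEN


end
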