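import Pool.Agent.MVF.C033
import Pool.Agent.MVF.C039
import Pool.Agent.MVF.C076
import Pool.Agent.MVF.C088
import Pool.Agent.MVF.C182
import Pool.Agent.MVF.C187
import Pool.Agent.OBM.C13
import Pool.Agent.OBM.C17
import Pool.Agent.OBM.C23
import Pool.Agent.OVM.C03
import Pool.Agent.OVM.C05
import Pool.Agent.OWM.C01

/-! Parts: OE.N_XMX, OE.N_HFE, OE.N_MAIN -/

section

/-!
# OE, one branch: the sets `XXE` satisfy `XM_E` for the group `NC h (RB p n)` (after `OB/I_XMX.lean`)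
-/

set_option autoImplicit false

namespace Pool.Agent.OEI

open _root_.MU3 Pool.Agent.MU3 Pool.Agent.MU3A Pool.Agent.MU3B Pool.Agent.RI Pool.Agent.RID
  Pool.Agent.MUX Pool.Agent.ME Pool.Agent.MUXK Pool.Agent.MUXI Pool.Agent.NS Pool.Agent.NSI
  Pool.Agent.OB Pool.Agent.OBI Pool.Agent.OT Pool.Agent.OTI Pool.Agent.OE
open Pool.Agent.MU3I (zt)

noncomputable section


/-- (XMX) the sets `XXE` satisfy `XM_E` for the group `NC h (RB p n)` -/
def Te_XMX : Prop :=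
  ∀ (p : ℕ) (A B : ℤ) (f : ℕ),
    SetQ p A B f → CaseE A B → 2 ∣ f → TorXE A B → ∀ (ι : Type) (R : RepsE A B (p * f) ι)
    (D : IntermediateField ℚ ℂ) (n : ℕ) (h : kk A B ≤ D), RB p n ≤ D →
    (∀ y ∈ D, y ∈ RFE (idl (A := A) (B := B) (lvX p f n))) → letI := algC h
    ∀ (_ : IsGalois (kk A B) ↥D) (γ : ↥D ≃ₐ[kk A B] ↥D),
    (∀ x : ↥D, (x : ℂ) = zt (p ^ (n + 1)) + (zt (p ^ (n + 1)))⁻¹ →
        ((γ x : ↥D) : ℂ) =
          zt (p ^ (n + 1)) ^ (1 + p) + (zt (p ^ (n + 1)) ^ (1 + p))⁻¹) →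
    XM_E R p f n γ (NC h (RB p n)) (fun τ => XXE R (lvX p f n) h τ)

open Pool.Agent.OBI.XMXx in
theorem te_XMX (h1 : Si_XXF_E) (h2 : Si_ARF_E) : Te_XMX := by
  intro p A B f hS hE h2f hT ι R D n h hRB hD
  let aD : Algebra (kk A B) ↥D := algC h
  intro hG γ hγ
  have hQ := hS.cq
  have hp0 : 0 < p := hS.pp.pos
  have hq3 : 3 ≤ p := by
    have h4 := hS.pp.two_le
    have h5 := hS.p2
    omega
  have hf1 : 1 ≤ f := Nat.one_le_iff_ne_zero.2 hS.f0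
  have hpn : 1 ≤ p ^ n := Nat.one_le_pow _ _ hp0
  set m : ℕ := lvX p f n with hm
  set M : ℕ := p ^ (n + 1) with hM
  have hmM : m = f * M := by rw [hm, hM, lvX_odd hS.p2]
  have hM3 : 3 ≤ M := by
    rw [hM]
    calc 3 = 1 * 3 := rfl
      _ ≤ p ^ n * p := Nat.mul_le_mul hpn hq3
      _ = p ^ (n + 1) := (pow_succ p n).symm
  have hm3 : 3 ≤ m := by
    rw [hmM]
    calc 3 = 1 * 3 := rfl
      _ ≤ f * M := Nat.mul_le_mul hf1 hM3
  have hm2 : 2 ≤ m := by omega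
  have hM0 : M ≠ 0 := by omega
  have hm0 : idl (A := A) (B := B) m ≠ ⊥ := by
    rw [Ne, Ideal.span_singleton_eq_bot]
    exact natCast_ne_zero' hQ (by omega)
  have h2n : 2 ∣ m := by
    rw [hmM]
    exact h2f.mul_right M
  have hcop : ∀ i, (nI (R.b i)).Coprime m := by
    intro i
    have h4 := R.cop i
    have h5 : (nI (R.b i)).Coprime p := h4.coprime_mul_right_right
    have h6 : (nI (R.b i)).Coprime f := h4.coprime_mul_left_right
    rw [hmM, hM]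
    exact h6.mul_right (h5.pow_right (n + 1))
  have hNL : ∃ (b : Ideal (OO A B)) (L : PeriodPair) (om : ℂ), IsNE b L om :=
    ⟨_, _, _, R.nl R.i0⟩
  obtain ⟨a1, -, a3, a4, a5, -, a7⟩ := h2 A B hQ hT hNL (idl m) hm0
    (MUXI.Hit.idl_le h2n) D h hD hG
  obtain ⟨x1, xt, x2⟩ := h1 A B hE hT (p * f) ι R m (by omega) h2n D h hD hG
  have hcomm : ∀ σ τ : ↥D ≃ₐ[kk A B] ↥D, σ * τ = τ * σ := by
    intro σ τ
    obtain ⟨a, -, ha⟩ := a3 σ
    obtain ⟨b, -, hb⟩ := a3 τ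
    have h5 := a5 σ τ a b ha hb
    have h6 := a5 τ σ b a hb ha
    refine a4 _ _ _ _ h5 h6 ⟨1, 1, ?_, ?_, ?_, ?_, ?_⟩
    · have := natCast_ne_zero' hQ (n := 1) one_ne_zero
      rwa [Nat.cast_one] at this
    · have := natCast_ne_zero' hQ (n := 1) one_ne_zero
      rwa [Nat.cast_one] at this
    · rw [sp, Ideal.span_singleton_one, ← Ideal.one_eq_top]
      exact isCoprime_one_left
    · rw [sub_self]
      exact Ideal.zero_mem _
    · rw [mul_comm a b]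
  have hcopr : ∀ τ, ∀ q ∈ XXE R m h τ,
      IsCoprime (Quotient.out q.2 : OO A B) ((m : ℕ) : OO A B) := fun τ q hq => hq.1
  refine ⟨hcomm, hcopr, xt, fun q hq hq2 => (x2 q hq).1 hq2,
    fun q τ τ' hq hq' => (x2 q (hcopr τ q hq)).2 τ τ' hq hq', ?_⟩
  intro q τ hq j
  set ζ : ℂ := zt M with hζd
  have hζ : IsPrimitiveRoot ζ M := Complex.isPrimitiveRoot_exp M hM0
  have hζM : ζ ^ M = 1 := hζ.pow_eq_one
  have hBn : RB p n = IntermediateField.adjoin ℚ {ζ + ζ⁻¹} := rfl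
  have htB : ζ + ζ⁻¹ ∈ RB p n := by
    rw [hBn]
    exact IntermediateField.mem_adjoin_simple_self ℚ _
  have htD : ζ + ζ⁻¹ ∈ D := hRB htB
  set y : ↥D := ⟨ζ + ζ⁻¹, htD⟩ with hy
  have hle : idl (A := A) (B := B) m ≤ idl M := by
    rw [Ideal.span_singleton_le_span_singleton, hmM]
    push_cast
    exact dvd_mul_left _ _
  -- the ideal of `τ`
  set x : OO A B := Quotient.out q.2 with hx
  have hxc : IsCoprime x ((m : ℕ) : OO A B) := hcopr τ q hq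
  have hqe : (q.1, Ideal.Quotient.mk (idl (A := A) (B := B) m) x) = q := by
    have h5 : Ideal.Quotient.mk (idl (A := A) (B := B) m) x = q.2 := Quotient.out_eq q.2
    rw [h5]
  have hAR : AR_E h (idl m) τ (sp x * cjI (R.b q.1)) := by
    refine ((x1 τ q.1 x hxc).1 ?_).2
    rw [hqe]
    exact hq
  have hx0 : x ≠ 0 := by
    intro h0
    rw [h0, isCoprime_zero_left] at hxc
    obtain ⟨z, hz⟩ := hxc.exists_right_inv
    exact natCast_not_unit hm2 z hz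
  have hb0 : R.b q.1 ≠ ⊥ := (R.nl q.1).b_ne
  have hspx : sp x ≠ ⊥ := by
    rwa [Ne, Ideal.span_singleton_eq_bot]
  have hN : ((nI (sp x * cjI (R.b q.1)) : ℕ) : ℤ) = nm x * nI (R.b q.1) := by
    rw [nI_mul hQ hspx (cjI_ne_bot hQ hb0), nI_sp hQ hx0, nI_cjI hQ hb0]
    push_cast
    rw [abs_of_nonneg (nm_nonneg hQ x)]
  have e1 := a7 M τ _ ζ y hM0 hle hAR hζM rfl
  -- the ideal of `γ`
  obtain ⟨c, hcc, hc⟩ := a3 γ
  have hc0 : c ≠ ⊥ := by
    rintro rfl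
    have h5 : IsUnit (idl (A := A) (B := B) m) := isCoprime_zero_left.1 hcc
    rw [Ideal.isUnit_iff, Ideal.eq_top_iff_one] at h5
    obtain ⟨z, hz⟩ := Ideal.mem_span_singleton.1 h5
    exact natCast_not_unit hm2 z hz.symm
  have hARj : ∀ j : ℕ, AR_E h (idl m) (γ ^ j) (c ^ j) := by
    intro j
    induction j with
    | zero =>
      rw [pow_zero, pow_zero, Ideal.one_eq_top]
      exact a1
    | succ j ih =>
      rw [pow_succ, pow_succ]
      exact a5 _ _ _ _ ih hc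
  have e2 := a7 M (γ ^ j) _ ζ y hM0 hle (hARj j) hζM rfl
  rw [(nI_pow hQ hc0 j).2] at e2
  have e3 := a7 M γ _ ζ y hM0 hle hc hζM rfl
  have e4 := hγ y rfl
  rw [e3] at e4
  have e5 := (pm hM0 hζ _ _).1 e4
  have e6 := pw (M : ℤ) (nI c : ℤ) ((1 + p : ℕ) : ℤ) e5 j
  -- the condition on `τ`
  have key : τ * (γ ^ j)⁻¹ ∈ NC h (RB p n) ↔
      ((τ y : ↥D) : ℂ) = (((γ ^ j) y : ↥D) : ℂ) := by
    rw [hcomm τ (γ ^ j)⁻¹]
    constructor
    · intro hmem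
      have h5 : ((γ ^ j)⁻¹ * τ) y = y := hmem y htB
      have h6 : τ y = (γ ^ j) y := by
        have h7 : (γ ^ j) (((γ ^ j)⁻¹ * τ) y) = (γ ^ j) y := by rw [h5]
        rwa [← AlgEquiv.mul_apply, mul_inv_cancel_left] at h7
      rw [h6]
    · intro he
      have h5 : ∀ z : ↥D, (z : ℂ) ∈ RB p n → τ z = (γ ^ j) z := by
        intro z hz
        let φ : ↥D →+* ℂ := (algebraMap ↥D ℂ).comp (τ : ↥D →+* ↥D)
        let ψ : ↥D →+* ℂ :=
          (algebraMap ↥D ℂ).comp ((γ ^ j : ↥D ≃ₐ[kk A B] ↥D) :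
            ↥D →+* ↥D)
        exact Subtype.ext (eqB hBn φ ψ htD he z hz)
      intro z hz
      have h6 := h5 z hz
      show (γ ^ j)⁻¹ (τ z) = z
      rw [h6, ← AlgEquiv.mul_apply, inv_mul_cancel]
      rfl
  have hqM : q0 p * p ^ n = M := by rw [q0_odd hS.p2, hM, pow_succ, mul_comm]
  rw [key, e1, e2, pm hM0 hζ]
  rw [hN, hqM, q0_odd hS.p2]
  push_cast
  push_cast at e6
  exact pm_iff (M : ℤ) _ _ _ e6

end

end Pool.Agent.OEI


end

section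

/-!
# OE, one branch: module HFE (`O_HFINE` from `O_TYFE`, `O_GPTE`), after `OB/HB_HF1.lean` (helper60)
-/

set_option autoImplicit false

namespace Pool.Agent.OEN

open _root_.MU3 _root_.Pool.Agent.MU3A _root_.Pool.Agent.MU3B _root_.Pool.Agent.MU3F _root_.Pool.Agent.MUX
  _root_.Pool.Agent.MUXH _root_.Pool.Agent.MUXHY _root_.Pool.Agent.MuSym _root_.Pool.Agent.OB
  _root_.Pool.Agent.OBH _root_.Pool.Agent.OE _root_.Pool.Agent.OEHQ _root_.Pool.Agent.ME OnePoint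
open _root_.Pool.Agent.MUXF (qb)
open _root_.Pool.Agent.MEH (PPE)

noncomputable section

/-- the norms of the `b_i` are prime to the conductor -/
private theorem copE' {A B : ℤ} {n : ℕ} {ι : Type} (R : RepsE A B n ι) {g : Ideal (OO A B)}
    (hg : ((n : ℕ) : OO A B) ∈ g) (i : ι) :
    IsCoprime (MUX.sp ((MUX.nI (R.b i) : ℕ) : OO A B)) g := by
  obtain ⟨u, w, huw⟩ : IsCoprime ((nI (R.b i) : ℕ) : ℤ) (n : ℤ) :=
    Nat.isCoprime_iff_coprime.mpr (R.cop i)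
  rw [Ideal.isCoprime_iff_exists]
  refine ⟨(u : OO A B) * ((nI (R.b i) : ℕ) : OO A B), ?_, (w : OO A B) * ((n : ℕ) : OO A B), ?_, ?_⟩
  · exact Ideal.mul_mem_left _ _ (Ideal.mem_span_singleton_self _)
  · exact Ideal.mul_mem_left _ _ hg
  · have := congrArg (fun z : ℤ => (z : OO A B)) huw
    push_cast at this
    exact this

private theorem e_nIE' {A B : ℤ} {n : ℕ} {ι : Type} (R : RepsE A B n ι) {g : Ideal (OO A B)}
    {e : OO A B → ℂ} (he : IsEI g e) (hn : ((n : ℕ) : OO A B) ∈ g) (c : ι) :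
    e ((nI (R.b c) : ℕ) : OO A B) ≠ 0 := by
  rw [he.supp]
  exact copE' R hn c

theorem n_HFE (h1 : Sq_HQ1) (h2 : So_HN) (h3 : Sq_VAL) (h4 : Sq_RAM) : O_HFINE := by
  intro p A B P V f hS hT ι _ R u el lam hg w hw e he' r hrp her i hi1 hi2 hty s hs kk hkk n₀
  have he : IsEI (idl (A := A) (B := B) (p * f)) e := he'.toIsEI
  obtain ⟨-, -, v1, -, -, -, -, -, hpf, -, -, -, -, -⟩ := h3 p A B P V f hS
  obtain ⟨hnI, -⟩ := h4 p A B P V hS.toCaseOE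
  have hcq : CQ A B := hS.toCQ
  have hp : p.Prime := hS.pp
  have hp5 : 5 ≤ p := hS.p5
  have hpz : Prime (p : ℤ) := Nat.prime_iff_prime_int.mp hp
  have hr0 : r ≠ 0 := by
    rintro rfl
    exact hrp (dvd_zero p)
  have hf0 := hS.f0
  set kk' : ι → ℂ := fun c => kk c / e ((nI (R.b c) : ℕ) : OO A B) with hkk'
  have heN : ∀ c, e ((nI (R.b c) : ℕ) : OO A B) ≠ 0 := e_nIE' R he hpf
  have hk1 : ∀ c, kk' c ^ r = 1 := by
    intro c
    rw [hkk']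
    beta_reduce
    rw [div_pow, hkk, her _ (heN c), div_one]
  obtain ⟨pi, KI, hyp, hdep, hunr, hvpi⟩ := h1 p A B P V f hS hT ι R u el lam hg w hw e he' r hrp
    her i hi1 hi2 hty s hs kk' hk1
  have hpp : p ≤ p ^ 2 := by nlinarith
  have hnP : p ≤ nI P ∧ nI P ≤ p ^ 2 := by
    rcases hnI with h | h <;> rw [h]
    · exact ⟨le_rfl, hpp⟩
    · exact ⟨hpp, le_rfl⟩
  have hq2 : i < nI P - 1 := by omega
  have hq3 : nI P - 1 < (p - 1) * p ^ 2 := by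
    have h5 : 1 * p ^ 2 ≤ (p - 1) * p ^ 2 := Nat.mul_le_mul_right _ (by omega)
    have h6 : 0 < p ^ 2 := by positivity
    omega
  have hq0 : q0 p = p := by
    unfold q0
    rw [if_neg (by omega)]
  have hfz : (0 : ℤ) < f := by exact_mod_cast Nat.pos_of_ne_zero hf0
  have haz : ((aX p f : ℕ) : ℤ) - 1 = p * (2 * f) := by
    unfold aX
    rw [hq0]
    push_cast
    ring
  have hap : (p : ℤ) ∣ ((aX p f : ℕ) : ℤ) - 1 := by rw [haz]; exact Dvd.intro _ rfl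
  have hpz0 : (0 : ℤ) < p := by exact_mod_cast hp.pos
  have ha1 : ((aX p f : ℕ) : ℤ) ≠ 1 := by
    intro h
    rw [h, sub_self] at haz
    have : (0 : ℤ) < p * (2 * f) := by positivity
    omega
  obtain ⟨n, hn, hmain⟩ := h2 p V (N0O p 1 A B f) 1 (nI P - 1) i (nuX e) _ pi KI hyp hdep hunr
    hi1 hq2 hq3 hvpi ((aX p f : ℕ) : ℤ) (1 + (p : ℤ)) hap ha1 (by rw [add_sub_cancel_left])
    (by omega) n₀
  refine ⟨n, hn, ?_⟩
  have hQS := MEH.h_QSX MUXF.xf_F5 MUXF.xf_PRD p hp A B hcq f hf0 ι inferInstance R _ e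
    he hpf kk s 1 n
  have hM : p * p ^ n = p ^ (n + 1) := by ring
  rw [hq0, hM] at hQS
  have hL : ∑ j ∈ Finset.range 2, (-1 : ℂ) ^ (1 - j) *
        (STXE R (lvX p f n) (p ^ (n + 1)) (aX p f) e kk ((1 + (p : ℤ)) ^ j) +
          s * STXE R (lvX p f n) (p ^ (n + 1)) (aX p f) e kk (-((1 + (p : ℤ)) ^ j))) =
      ∑ j ∈ Finset.range (1 + 1), ((-1 : ℂ) ^ (1 - j) * ((1 : ℕ).choose j : ℂ)) *
        (STXE R (lvX p f n) (p ^ (n + 1)) (aX p f) e kk ((1 + (p : ℤ)) ^ j) +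
          s * STXE R (lvX p f n) (p ^ (n + 1)) (aX p f) e kk (-(1 + (p : ℤ)) ^ j)) := by
    refine Finset.sum_congr rfl fun j hj => ?_
    have hj2 : j = 0 ∨ j = 1 := by
      have := Finset.mem_range.1 hj
      omega
    rcases hj2 with rfl | rfl <;> simp
  rw [hL, hQS]
  have hprim := Hfx.prim p (n + 1) hp (-((1 + (p : ℤ)) * ((aX p f : ℕ) : ℤ) ^ 2)) (by
    intro h
    rw [dvd_neg] at h
    have hnu : ¬ (p : ℤ) ∣ 1 := fun h7 => hpz.not_isUnit (isUnit_of_dvd_one h7)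
    rcases hpz.dvd_or_dvd h with h | h
    · exact hnu ((dvd_add_left (dvd_refl (p : ℤ))).1 h)
    · have h5 := hpz.dvd_of_dvd_pow h
      have h6 := dvd_sub h5 hap
      rw [sub_sub_cancel] at h6
      exact hnu h6)
  have hζ : ex (-((1 + (p : ℚ)) ^ 1 * (aX p f : ℚ) ^ 2) / ((p ^ (n + 1) : ℕ) : ℚ)) =
      ex (((-((1 + (p : ℤ)) * ((aX p f : ℕ) : ℤ) ^ 2) : ℤ) : ℚ) / (p : ℚ) ^ (n + 1)) := by
    push_cast
    rw [pow_one]
  rw [hζ]
  set ζ : ℂ := ex (((-((1 + (p : ℤ)) * ((aX p f : ℕ) : ℤ) ^ 2) : ℤ) : ℚ) / (p : ℚ) ^ (n + 1))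
    with hζd
  have h5 := hmain ζ hprim
  have hu := hg.u0
  have e5 : (2 * (f : ℂ) * ∑ b ∈ Finset.range (p ^ (n + 1)), ζ ^ b *
      comb ((aX p f : ℕ) : ℤ) (1 + (p : ℤ)) 1 (fun b => sgnPart (s : ℂ) (PPE R e kk) ∞
        ((b / ((p ^ (n + 1) : ℕ) : ℚ) : ℚ) : OnePoint ℚ)) b) / u =
      2 * f * ∑ b ∈ Finset.range (p ^ (n + 1)), ζ ^ b *
      comb ((aX p f : ℕ) : ℤ) (1 + (p : ℤ)) 1 (fun b => sgnPart (s : ℂ)
        (fun x y => PhiKE R e kk' x y / (u * R.om R.i0)) ∞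
        (((b : ℚ) / (p : ℚ) ^ (n + 1) : ℚ) : OnePoint ℚ)) b := by
    rw [mul_div_assoc, Finset.sum_div]
    congr 1
    refine Finset.sum_congr rfl fun b _ => ?_
    rw [mul_div_assoc]
    congr 1
    unfold comb
    rw [Finset.sum_div]
    refine Finset.sum_congr rfl fun j _ => ?_
    rw [mul_div_assoc]
    congr 1
    have e6 : ∀ b : ℤ, sgnPart (s : ℂ) (PPE R e kk) ∞
        ((b / ((p ^ (n + 1) : ℕ) : ℚ) : ℚ) : OnePoint ℚ) = u * sgnPart (s : ℂ)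
        (fun x y => PhiKE R e kk' x y / (u * R.om R.i0)) ∞
        (((b : ℚ) / (p : ℚ) ^ (n + 1) : ℚ) : OnePoint ℚ) := by
      intro b
      have e7 : ∀ x y, PPE R e kk x y = u * (PhiKE R e kk' x y / (u * R.om R.i0)) := by
        intro x y
        unfold PPE
        rw [← mul_div_assoc, mul_div_mul_left _ _ hu]
      unfold sgnPart
      rw [e7, e7]
      push_cast
      ring
    beta_reduce
    rw [e6, e6]
    field_simp
  rw [e5, map_mul, map_mul]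
  have e8 : V.valuation (2 : ℂ) = 1 := by
    have := v1 2 (by
      intro h
      have := Int.le_of_dvd (by norm_num) h
      omega)
    exact_mod_cast this
  have e9 : V.valuation (f : ℂ) = 1 := by
    have := v1 f (by
      intro h
      exact hS.fp (by exact_mod_cast h))
    exact_mod_cast this
  rw [e8, e9, one_mul, one_mul]
  exact h5

/-- (HFINE) the character sums for the exceptional fields -/
theorem o_HFINE (hT : O_TYFE) (hG : O_GPTE) : O_HFINE :=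
  n_HFE (oe_HQ1 hT hG) o_HN oe_VAL oe_RAM

end

end Pool.Agent.OEN


end

section

/-!
# OE, the one-branch theorem for `k = ℚ(i)`, `ℚ(√-3)` (helper84): the inputs of block K, nilpotency, the linear bound

After `OB/Z_INPO.lean`, `OB/J_MAIN.lean`, `OB/J_NIL.lean`, over helper19's `OE/J_*.lean`.
-/

set_option autoImplicit false

open NumberField IsDedekindDomain

namespace Pool.Agent.OEN

open _root_.MU3 Pool.Agent.MU3 Pool.Agent.MU3A Pool.Agent.MU3B Pool.Agent.RI Pool.Agent.RID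
  Pool.Agent.MUX Pool.Agent.ME Pool.Agent.MUXK Pool.Agent.MUXE Pool.Agent.MUXJ Pool.Agent.MUXZ
  Pool.Agent.NSI Pool.Agent.OB Pool.Agent.MUXW Pool.Agent.OE
open Pool.Agent.NSZ (idl_ne_bot)
open Pool.Agent.OBZ (tl_LVX)
open Pool.Agent.OEJ
open Pool.Agent.OBI (IsOm brO)

noncomputable section

/-- (INPOE) -/
theorem o_INPOE (hRF : O_RFINE) (hEF : O_EFINE) (hI : O_I3E) :
    ∀ (p : ℕ) (A B : ℤ) (P : Ideal (OO A B)) (V : ValuationSubring ℂ),
      CaseOE p A B P V → TorXE A B → InpGOE p A B V := by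
  intro p A B P V hC hT f hf0 hfp hf12 hfD K₀ K Bn _ _ _ hX hK hH hk hk₀ hkK
  have hCQ : MUX.CQ A B := hC.toCQ
  have hS : SetOE p A B P V f := { hC with f0 := hf0, fp := hfp, f12 := hf12, fD := hfD }
  have hQ := setQ_OE hS
  have : Fact (Nat.Prime p) := ⟨hC.pp⟩
  obtain ⟨R⟩ := MEZ.rexE hC.toCaseE (p * f)
  have hodd := (tl_LVX p A B _ hQ 0).2.2.2.2.2.1
  obtain ⟨H, hHalf, hθ⟩ := (tz_THN_E y_THG_E) A B hCQ hT (p * f) Unit R (aX p f) hodd
  have hθ' : ∀ n : ℕ, ∃ θ : (RFE (idl (A := A) (B := B) (lvX p f n)) :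
      IntermediateField (kk A B) ℂ),
      (θ : ℂ) = ThetaH (R.L R.i0) (H R.i0) (ptE R (lvX p f n) R.i0 1) ∧
      (θ : ℂ) = ThetaH (R.L R.i0) (H R.i0) (R.om R.i0 / emb ((lvX p f n : ℕ) : OO A B)) ∧
      θ ≠ 0 := fun n =>
    hθ (lvX p f n) (tl_LVX p A B _ hQ n).1 (tl_LVX p A B _ hQ n).2.2.2.2.1
      (tl_LVX p A B _ hQ n).2.2.2.2.2.2.1
  choose θ hθ1 hθ2 hθ3 using hθ'
  have hth : ThN_E p f R H θ := ⟨hHalf, hθ1, hθ2, hθ3⟩
  obtain ⟨S, hW⟩ := z_INWE p A B f hQ hC.toCaseE (lv_evenO hS.f12 0) hT Unit R H θ hth K₀ K Bn hX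
    hK hH hk hk₀
  obtain ⟨u, e, lam, hG, -, -, -⟩ := (hRF p A B P V hC hT).1 _ _ _ (R.nl R.i0)
  have hNL : ∃ (b : Ideal (OO A B)) (L : PeriodPair) (om : ℂ), IsNE b L om :=
    ⟨_, _, _, R.nl R.i0⟩
  have hK₀ : ∀ y ∈ K₀, y ∈ RFE (idl (A := A) (B := B) (lvX p f 0)) := fun y hy => hK y (hX.le hy)
  have hInR : ∀ n, ∀ y ∈ K₀ ⊔ Bn n, y ∈ RFE (idl (A := A) (B := B) (lvX p f n)) := fun n =>
    t_SUBE p A B _ hQ hT hNL K₀ hK₀ n (Bn n) (hX.b0.lay n)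
  refine ⟨S, fun n => cW (hk n) (θ n), fun n => cW (hk₀ n) (θ n), 0, hW, fun χ om hom => ?_⟩
  refine hI p A B P V f hS hT Unit R u e lam hG K₀ K Bn hX hK₀ hk hk₀ hkK S _ _ 0 hW
    (fun n τ => cWt (hk₀ n) (θ n) τ) (fun n hn => ?_) (fun n hn => ?_) χ om hom
  · exact eInpOE hEF hS hT R hG hth n hn (K₀ ⊔ Bn n) (hk₀ n) (hInR n)
  · have hb : (idl (A := A) (B := B) (lvX p f n)) ≠ ⊥ := idl_ne_bot (tl_LVX p A B _ hQ n).1
    exact (y_MEM A B _ (hT.fin _ hb) (hT.gal _ hb) (hT.comm _ hb) _ (hk₀ n) (hInR n) (θ n)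
      (hth.ne n)).1

/-- the field `K` and the inputs of block K -/
theorem o_mainE (hRF : O_RFINE) (hEF : O_EFINE) (hI3 : O_I3E) : O_MAINE := by
  intro p hpf h5 A B hE K₀ _ hk hG hc hcop hom Bn _ hlay hmono hk₀ χ om hIs
  have hp : p.Prime := hpf.out
  obtain ⟨P, V, hC⟩ := t_VEXE p A B hE hp h5
  obtain ⟨hpd, hd⟩ := t_DOE hC
  have hCQ : MUX.CQ A B := hE.toCQ
  have hTor : TorXE A B := Pool.Agent.MEC.c_TORE A B hE
  have hNL : NLex_E A B := by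
    obtain ⟨L, w, hL⟩ := Pool.Agent.MEC.exists_isNE hE ⊤ (by
      have := (MUXE.xe_RNG A B hCQ).ded
      exact bot_ne_top.symm)
    exact ⟨⊤, L, w, hL⟩
  have hTU : TorU_E A B K₀ := Pool.Agent.JTE.torU_E A B hE K₀ hk hG hc
  obtain ⟨M, hM, hKM⟩ := t_DIR_E A B hCQ hTor K₀ hTU
  obtain ⟨f, hf0, hfp, hfd, hKf⟩ := t_LEVE p 24 A B hp (by norm_num) hpd (by norm_num) hTor hNL
    K₀ hk hcop M hM hKM
  have hS := hd f hf0 hfp hfd
  obtain ⟨K, hKfd, hSX, hKR, hHK⟩ := t_SETFE p A B P V hE hp h5 hC.prime hC.mem hC.hV hTor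
    f hf0 K₀ hk hcop hKf hom Bn hlay hmono
  have hfk : FiniteDimensional ℚ (kk A B) :=
    Module.Finite.of_injective (IntermediateField.inclusion hk).toLinearMap
      (IntermediateField.inclusion hk).injective
  have hfB : ∀ n, FiniteDimensional ℚ ↥(K ⊔ Bn n) := fun n => by
    obtain ⟨h1, -, -⟩ := LAY_thm p n (Bn n) (hlay n)
    exact IntermediateField.finiteDimensional_sup K (Bn n)
  have hkn : ∀ n, kk A B ≤ K ⊔ Bn n := fun n => (hk.trans hSX.le).trans le_sup_left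
  obtain ⟨S, c, c₀, n₁, hW, hI⟩ := o_INPOE hRF hEF hI3 p A B P V hC hTor f hS.f0 hS.fp hS.f12
    hS.fD K₀ K Bn hSX hKR hHK hkn hk₀ hk
  obtain ⟨hchar, halg⟩ := t_RES p V (caseOE_hp hC)
  obtain ⟨io⟩ := ex_io p (IsLocalRing.ResidueField V)
  obtain ⟨j, hj, hje, hI3'⟩ := hI (mpO io hk χ) (mpO io hk om) (isOm_mp io p hk om hIs)
  have hI3C : I3C (AlgebraicClosure (ZMod p)) p (kk A B) K₀ Bn hk₀ hk c₀ hW.mem₀
      (brO hk χ om j) := by
    intro N n₀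
    obtain ⟨n, hn, h⟩ := hI3' N n₀
    refine ⟨n, hn, I3At_mp io p (kk A B) K₀ Bn hk (brO hk χ om j) N n (hk₀ n) (c₀ n)
      (hW.mem₀ n) ?_⟩
    rw [mpO_br]
    exact h
  exact ⟨j, hj, hje,
    o_MAINO (AlgebraicClosure (ZMod p)) p (kk A B) K₀ K Bn hSX hkn hk₀ hk S c c₀ n₁ hW
      (brO hk χ om j) hI3C,
    o_BNDO (AlgebraicClosure (ZMod p)) p (kk A B) K₀ K Bn hSX hkn hk₀ hk S c c₀ n₁ hW
      (brO hk χ om j) hI3C⟩

/-- THE ONE BRANCH THEOREM for the exceptional fields -/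
theorem o_nbE (hM : O_MAINE) (hOM : OBI.Oi_OME) : O_NBE := by
  intro p hpf h5 k K₀ Bn _ _ _ hB hk₀ hkK h2 hi hcase hcop hom χ
  obtain ⟨A, B, hE, rfl⟩ : ∃ (A B : ℤ), CaseE A B ∧ k = kk A B := by
    rcases hcase with h4 | h3
    · exact ⟨_, _, case_one, kk_eq_one h2 h4⟩
    · exact ⟨_, _, case_three, kk_eq_three h2 h3⟩
  obtain ⟨om, hIs⟩ := hOM (AlgebraicClosure (ZMod p)) p (kk A B) K₀ hkK hom
  obtain ⟨j, hj, hje, hnil, hbd⟩ := hM p h5 A B hE K₀ hkK hB.gal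
    hB.ab hcop hom Bn hB.lay hB.mono hk₀ χ om hIs
  refine ⟨j, brO hkK χ om j, hj, hje, ?_, hnil, hbd⟩
  let _ := algC hkK
  intro s c hs
  obtain ⟨ω, hω, hωp⟩ := hom
  have h1 : ((om s : (AlgebraicClosure (ZMod p))ˣ) : AlgebraicClosure (ZMod p)) = c := by
    have hz : (⟨ω, hω⟩ : K₀) ^ p = 1 := Subtype.ext hωp.pow_eq_one
    refine hIs s ⟨ω, hω⟩ c hz ?_ (hs _ hz)
    intro h
    have h7 : ω = 1 := congrArg Subtype.val h
    have h8 := hωp.eq_orderOf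
    rw [h7, orderOf_one] at h8
    omega
  show ((((χ * om ^ j) s : (AlgebraicClosure (ZMod p))ˣ)) : AlgebraicClosure (ZMod p)) = _
  rw [MonoidHom.mul_apply, MonoidHom.pow_apply, Units.val_mul, Units.val_pow_eq_pow_val, h1]

theorem o_nilE (h : O_NBE) : O_NILE := by
  intro p hpf h5 k K₀ B _ _ _ hB hk₀ hkK h2 hi hcase hcop hom χ
  obtain ⟨j, χ', h6, h7, h8, h9, -⟩ := h p h5 k K₀ B hB hk₀ hkK h2 hi hcase hcop hom χ
  exact ⟨j, χ', h6, h7, h8, h9⟩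

end

end Pool.Agent.OEN


end
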