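import Pool.Agent.OWM.C03
import Pool.Agent.OVM.Stmt
import Pool.Agent.OBM.Br

/-!
# The theorem of the hand-in OneBranch, with the definitions of the statement
-/

set_option autoImplicit false

open NumberField IntermediateField

namespace Pool.Agent.MuBr

theorem one_branch_all :
    (∀ (p : ℕ) [Fact p.Prime], 5 ≤ p → ∀ (k K : IntermediateField ℚ ℂ) (h : k ≤ K),
      ImQuadratic k → Abelian p h → (∃ ζ ∈ K, IsPrimitiveRoot ζ p) →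
      (∀ χ : ((extendScalars h) ≃ₐ[k] (extendScalars h)) →* (AlgebraicClosure (ZMod p))ˣ,
        (∃ i < p - 1, Even i ∧ ∃ χ', IsTwist p h χ χ' i ∧ MuZeroC p h χ') ∧
        ∃ j < p - 1, Odd j ∧ ∃ χ', IsTwist p h χ χ' j ∧ MuZeroC p h χ') ∧
      2 * Module.finrank k (extendScalars h) ≤ (p - 1) * {χ | MuZeroC p h χ}.ncard) ∧
    (∀ E : IntermediateField ℚ ℂ, Module.finrank ℚ E = 4 → (∃ w ∈ E, w ^ 2 = 5) →
      (∃ φ : E →+* ℂ, ∀ x, (starRingEnd ℂ) (φ x) = φ x) →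
      (∃ φ : E →+* ℂ, ∃ x, (starRingEnd ℂ) (φ x) ≠ φ x) →
      ∀ (F F' : IntermediateField ℚ ℂ) (h : E ⊔ adjoin ℚ {z : ℂ | z ^ 5 = 1} ≤ F'),
        FiniteDimensional ℚ F' →
        IsGalois ↥(E ⊔ adjoin ℚ {z : ℂ | z ^ 5 = 1}) (extendScalars h) →
        (∃ a : ℕ, Module.finrank ↥(E ⊔ adjoin ℚ {z : ℂ | z ^ 5 = 1}) (extendScalars h) = 5 ^ a) →
        F ≤ F' → MuZeroF 5 F) := by
  obtain ⟨h1, h2⟩ := Pool.Agent.OEN.one_branch_all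
  refine ⟨fun p _ hp k K h hk hK hz => ?_, fun E h4 h5 hr hc F F' h hf hg ha hFF =>
    br_muF (h2 E h4 h5 hr hc F F' h hf hg ha hFF)⟩
  obtain ⟨h3, h4⟩ := h1 p hp k K h hk.deg hk.imag hK.old hz
  refine ⟨fun χ => ?_, ?_⟩
  · obtain ⟨⟨i, hi, ei, χ1, t1, m1⟩, j, hj, oj, χ2, t2, m2⟩ := h3 χ
    exact ⟨⟨i, hi, ei, χ1, br_twist t1, br_mu.2 m1⟩, j, hj, oj, χ2, br_twist t2, br_mu.2 m2⟩
  · have h5 : {χ | MuZeroC p h χ}.ncard = Nat.card {χ : MuCyc.Chr p h // MuCyc.MuZeroC p h χ} := by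
      rw [← Nat.card_coe_set_eq]
      exact Nat.card_congr (Equiv.subtypeEquivRight fun χ => br_mu)
    rw [h5]
    exact h4

end Pool.Agent.MuBr
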